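import Mathlib

namespace Pool.Agent.Results.MP_697cf1_co.Counter
open Filter

noncomputable def ud (A : Set ℕ) : ℝ :=
  limsup (fun N : ℕ => ((A ∩ Set.Icc 1 N).ncard : ℝ) / N) atTop

def A0 : Set ℕ := {n | ∃ j, 13 * 6 ^ j ≤ n ∧ n < 36 * 6 ^ j}

lemma gap {n : ℕ} (h : n ∈ A0) (i : ℕ) : n < 36 * 6 ^ i ∨ 78 * 6 ^ i ≤ n := by
  obtain ⟨j, h1, h2⟩ := h
  rcases le_or_gt j i with h | h
  · have := Nat.pow_le_pow_right (show 0 < 6 by norm_num) h
    omega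
  · have := Nat.pow_le_pow_right (show 0 < 6 by norm_num) (show i + 1 ≤ j from h)
    rw [pow_succ] at this
    omega

lemma avoid (x a b c : ℕ) (hx : 100 * (a + b + c) ≤ x) (h1 : x + a ∈ A0) (h2 : 2 * x + b ∈ A0)
    (h3 : 3 * x + c ∈ A0) : False := by
  have g2 := gap h2
  have g3 := gap h3
  obtain ⟨j, h4, h5⟩ := h1
  have := g2 j
  have := g3 j
  omega

lemma fin (A : Set ℕ) (N : ℕ) : (A ∩ Set.Icc 1 N).Finite :=
  (Set.finite_Icc 1 N).subset Set.inter_subset_right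

lemma count (j : ℕ) : 138 * 6 ^ j ≤ 5 * (A0 ∩ Set.Icc 1 (36 * 6 ^ j)).ncard + 138 := by
  induction j with
  | zero => omega
  | succ j ih =>
    have hp : 0 < 6 ^ j := by positivity
    have h1 : (A0 ∩ Set.Icc 1 (36 * 6 ^ j)) ∪ Set.Ico (13 * 6 ^ (j + 1)) (36 * 6 ^ (j + 1)) ⊆
        A0 ∩ Set.Icc 1 (36 * 6 ^ (j + 1)) := by
      rintro n (⟨h1, h2, h3⟩ | ⟨h1, h2⟩)
      · exact ⟨h1, h2, by rw [pow_succ]; omega⟩
      · exact ⟨⟨j + 1, h1, h2⟩, by rw [pow_succ] at h1; omega, h2.le⟩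
    have h2 := Set.ncard_le_ncard h1 (fin _ _)
    rw [Set.ncard_union_eq _ (fin _ _) (Set.finite_Ico _ _), Set.ncard_Ico_nat] at h2
    · rw [pow_succ] at h2 ⊢
      omega
    · rw [Set.disjoint_left]
      rintro n ⟨_, _, h3⟩ ⟨h4, _⟩
      rw [pow_succ] at h4
      omega

lemma le_ud (A : Set ℕ) (c : ℝ) (h : ∀ M : ℕ, ∃ N ≥ M, 0 < N ∧
    c * N ≤ (A ∩ Set.Icc 1 N).ncard) : c ≤ ud A := by
  refine le_limsup_of_frequently_le ?_ ?_
  · rw [frequently_atTop]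
    intro M
    obtain ⟨N, h1, h2, h3⟩ := h M
    exact ⟨N, h1, (le_div_iff₀ (by exact_mod_cast h2)).2 h3⟩
  · refine isBoundedUnder_of ⟨1, fun N => div_le_one_of_le₀ ?_ (Nat.cast_nonneg _)⟩
    have := Set.ncard_le_ncard (Set.inter_subset_right (s := A)) (Set.finite_Icc 1 N)
    rw [Set.ncard_Icc_nat] at this
    exact_mod_cast (by omega : (A ∩ Set.Icc 1 N).ncard ≤ N)

lemma count' (M : ℕ) : ∃ N ≥ M, 0 < N ∧ 76 * N ≤ 100 * (A0 ∩ Set.Icc 1 N).ncard := by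
  have h1 := count (M + 3)
  have h2 : M < 6 ^ M := Nat.lt_pow_self (by norm_num)
  rw [pow_add] at h1
  refine ⟨36 * (6 ^ M * 6 ^ 3), by omega, by omega, by omega⟩

def A1 : Set ℕ := {n | ¬ 3 ∣ n ∨ n / 3 ∈ A0}

lemma count1 (N : ℕ) :
    2 * N + (A0 ∩ Set.Icc 1 N).ncard ≤ (A1 ∩ Set.Icc 1 (3 * N)).ncard := by
  have h1 : ((fun i => 3 * i + 1) '' Set.Ico 0 N ∪ (fun i => 3 * i + 2) '' Set.Ico 0 N) ∪
      (fun i => 3 * i) '' (A0 ∩ Set.Icc 1 N) ⊆ A1 ∩ Set.Icc 1 (3 * N) := by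
    rintro _ ((⟨i, ⟨_, h⟩, rfl⟩ | ⟨i, ⟨_, h⟩, rfl⟩) | ⟨i, ⟨h, h1, h2⟩, rfl⟩)
    · exact ⟨Or.inl (by beta_reduce; omega), by beta_reduce; omega, by beta_reduce; omega⟩
    · exact ⟨Or.inl (by beta_reduce; omega), by beta_reduce; omega, by beta_reduce; omega⟩
    · refine ⟨Or.inr ?_, by beta_reduce; omega, by beta_reduce; omega⟩
      beta_reduce
      rwa [Nat.mul_div_cancel_left _ (by norm_num)]
  have h2 := Set.ncard_le_ncard h1 (fin _ _)
  rw [Set.ncard_union_eq _ (((Set.finite_Ico _ _).image _).union ((Set.finite_Ico _ _).image _))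
    ((fin _ _).image _), Set.ncard_union_eq _ ((Set.finite_Ico _ _).image _)
    ((Set.finite_Ico _ _).image _), Set.ncard_image_of_injective, Set.ncard_image_of_injective,
    Set.ncard_image_of_injective, Set.ncard_Ico_nat] at h2
  · omega
  · intro a b h
    beta_reduce at h
    omega
  · intro a b h
    beta_reduce at h
    omega
  · intro a b h
    beta_reduce at h
    omega
  · rw [Set.disjoint_left]
    rintro _ ⟨i, _, rfl⟩ ⟨j, _, h⟩
    beta_reduce at h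
    omega
  · rw [Set.disjoint_left]
    rintro _ (⟨i, _, rfl⟩ | ⟨i, _, rfl⟩) ⟨j, _, h⟩ <;> beta_reduce at h <;> omega

theorem result : ∃ m l : ℕ, 1 ≤ l ∧ l < m ∧
    (∃ A : Set ℕ, 0 ∉ A ∧ ((m : ℝ) / l + 1) / ((m : ℝ) / l + 2) < ud A ∧
      ∀ B : Set ℕ, B.Infinite → ∀ t : ℕ, ¬ ∀ b₁ ∈ B, ∀ b₂ ∈ B, m * b₁ + l * b₂ + t ∈ A) ∧
    (∃ A : Set ℕ, 0 ∉ A ∧ 1 - 1 / (l * ((m : ℝ) / l + 1) * ((m : ℝ) / l + 2)) < ud A ∧
      ∀ B : Set ℕ, B.Infinite → ¬ ∀ b₁ ∈ B, ∀ b₂ ∈ B, m * b₁ + l * b₂ ∈ A) := by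
  have h0 : 0 ∉ A0 := by
    rintro ⟨j, h, _⟩
    have : 0 < 6 ^ j := by positivity
    omega
  refine ⟨2, 1, le_rfl, by norm_num, ⟨A0, h0, ?_, ?_⟩, ⟨A1, ?_, ?_, ?_⟩⟩
  · refine lt_of_lt_of_le (by norm_num) (le_ud A0 (76 / 100) fun M => ?_)
    obtain ⟨N, h1, h2, h3⟩ := count' M
    refine ⟨N, h1, h2, ?_⟩
    have : (76 : ℝ) * N ≤ 100 * (A0 ∩ Set.Icc 1 N).ncard := by exact_mod_cast h3
    linarith
  · intro B hB t h
    obtain ⟨b, hb⟩ := hB.nonempty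
    obtain ⟨x, hx, hbx⟩ := hB.exists_gt (100 * (2 * b + t + (b + t) + t))
    refine avoid x (2 * b + t) (b + t) t hbx.le ?_ ?_ ?_
    · have := h b hb x hx
      rwa [show 2 * b + 1 * x + t = x + (2 * b + t) by ring] at this
    · have := h x hx b hb
      rwa [show 2 * x + 1 * b + t = 2 * x + (b + t) by ring] at this
    · have := h x hx x hx
      rwa [show 2 * x + 1 * x + t = 3 * x + t by ring] at this
  · rintro (h | h)
    · exact h (dvd_zero _)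
    · exact h0 h
  · refine lt_of_lt_of_le (by norm_num) (le_ud A1 (92 / 100) fun M => ?_)
    obtain ⟨N, h1, h2, h3⟩ := count' M
    refine ⟨3 * N, by omega, by omega, ?_⟩
    have h4 := count1 N
    have : 92 * (3 * N) ≤ 100 * (A1 ∩ Set.Icc 1 (3 * N)).ncard := by omega
    have : (92 : ℝ) * (3 * N : ℕ) ≤ 100 * (A1 ∩ Set.Icc 1 (3 * N)).ncard := by exact_mod_cast this
    linarith
  · intro B hB h
    obtain ⟨r, hr⟩ : ∃ r < 3, {x ∈ B | x % 3 = r}.Infinite := by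
      by_contra hc
      push Not at hc
      refine hB ((((hc 0 (by norm_num)).union (hc 1 (by norm_num))).union
        (hc 2 (by norm_num))).subset fun x hx => ?_)
      have : x % 3 = 0 ∨ x % 3 = 1 ∨ x % 3 = 2 := by omega
      rcases this with h | h | h
      · exact Or.inl (Or.inl ⟨hx, h⟩)
      · exact Or.inl (Or.inr ⟨hx, h⟩)
      · exact Or.inr ⟨hx, h⟩
    obtain ⟨b, hb, hb3⟩ := hr.2.nonempty
    obtain ⟨x, ⟨hx, hx3⟩, hbx⟩ := hr.2.exists_gt (1000 * b)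
    obtain ⟨y, rfl⟩ : ∃ y, x = b + 3 * y := ⟨(x - b) / 3, by omega⟩
    refine avoid y b b b (by omega) ?_ ?_ ?_
    · have := (h b hb _ hx).resolve_left (by omega)
      rwa [show (2 * b + 1 * (b + 3 * y)) / 3 = y + b by omega] at this
    · have := (h _ hx b hb).resolve_left (by omega)
      rwa [show (2 * (b + 3 * y) + 1 * b) / 3 = 2 * y + b by omega] at this
    · have := (h _ hx _ hx).resolve_left (by omega)
      rwa [show (2 * (b + 3 * y) + 1 * (b + 3 * y)) / 3 = 3 * y + b by omega] at this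

end Pool.Agent.Results.MP_697cf1_co.Counter
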